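import Pool.Agent.R196.FerDefs
import Pool.Agent.R196.FerE

/-!
# The Fermat quotient group of all algebraic power series

Definitions (`Pool/Agent/R196/FerDefs.lean`), subgroups of `ℤ⟦X⟧`; a power series with integer
coefficients is algebraic over `ℚ(x)` if and only if it is algebraic over `ℤ[x]`:
* `FF`: the algebraic series with the Fermat property, `p ∣ s(p)` for all large primes `p`;
* `DD`: all `x U'`, `U ∈ ℤ⟦X⟧` algebraic;
* `PP`: the finite sums of series `U (x ^ M)`, `M ≥ 2`, `U ∈ ℤ⟦X⟧` algebraic;
* `PolyG`: the integer polynomials.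
-/

set_option autoImplicit false

open scoped Polynomial PowerSeries

namespace Pool.Agent.Results.MP_762bfd_nt.AlgebraicQuotient

open Pool.Agent.R196.Fer

/-- The group `𝓕 / (D + ℤ[x] + P)` is isomorphic to the direct sum of countably many copies of
`ℚ`. -/
theorem result : Nonempty ((FF ⧸ (DD ⊔ PolyG ⊔ PP).addSubgroupOf FF) ≃+ (ℕ →₀ ℚ)) :=
  main_alg

end Pool.Agent.Results.MP_762bfd_nt.AlgebraicQuotient
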