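import Pool.Agent.R196.FerDefs
import Pool.Agent.R196.FerE

/-!
# The Fermat quotient group of the rational functions

Definitions (`Pool/Agent/R196/FerDefs.lean`), subgroups of `ℤ⟦X⟧`; a power series with
integer coefficients is algebraic over `ℚ(x)` if and only if it is algebraic over `ℤ[x]`:
* `FF`: the algebraic series with the Fermat property, `p ∣ s(p)` for all large primes `p`;
* `DD`: all `x U'`, `U ∈ ℤ⟦X⟧` algebraic;
* `PP`: the finite sums of series `U (x ^ M)`, `M ≥ 2`, `U ∈ ℤ⟦X⟧` algebraic;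
* `PolyG`: the integer polynomials;
* `RatG`: the series in `ℤ⟦X⟧` which are rational functions.
-/

set_option autoImplicit false

open scoped Polynomial PowerSeries

namespace Pool.Agent.Results.MP_762bfd_nt.RationalQuotient

open Pool.Agent.R196.Fer

/-- The group `𝔓_∅ = 𝓕_∅ / (D_∅ + ℤ[x] + P_∅)` of the rational functions is isomorphic to the direct
sum of countably many copies of `ℚ`. -/
theorem result : Nonempty (((FF ⊓ RatG : AddSubgroup ℤ⟦X⟧) ⧸
    ((DD ⊓ RatG) ⊔ PolyG ⊔ (PP ⊓ RatG)).addSubgroupOf (FF ⊓ RatG)) ≃+ (ℕ →₀ ℚ)) :=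
  main_rat

end Pool.Agent.Results.MP_762bfd_nt.RationalQuotient
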